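import Pool.Agent.Y571.UB.Stm2

/-!
# Upper bound for the Poisson entropy (helper419, for helper571, project UB)
-/

set_option autoImplicit false

open Filter Topology
open Pool.Agent.H632R3.RCG

namespace Pool.Agent.Y419.UB.Ent

/-- the first moment of the Poisson law -/
theorem mean (s : ℝ) :
    HasSum (fun j : ℕ => Real.exp (-s) * s ^ j / (j.factorial : ℝ) * (j : ℝ)) s := by
  have h1 : HasSum (fun j : ℕ => Real.exp (-s) * s ^ (j + 1) / ((j + 1).factorial : ℝ) *
      ((j + 1 : ℕ) : ℝ)) s := by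
    have h2 := (poisson_hasSum s).mul_left s
    rw [mul_one] at h2
    refine h2.congr_fun ?_
    intro j
    have hf : (j.factorial : ℝ) ≠ 0 := by exact_mod_cast j.factorial_ne_zero
    have hj : ((j : ℝ) + 1) ≠ 0 := by positivity
    rw [Nat.factorial_succ]
    push_cast
    field_simp
    ring
  have h3 := (hasSum_nat_add_iff (f := fun j : ℕ => Real.exp (-s) * s ^ j / (j.factorial : ℝ) *
    (j : ℝ)) 1).1 h1
  simpa using h3

/-- the second factorial moment of the Poisson law -/
theorem second (s : ℝ) :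
    HasSum (fun j : ℕ => Real.exp (-s) * s ^ j / (j.factorial : ℝ) * ((j : ℝ) * ((j : ℝ) - 1)))
      (s ^ 2) := by
  have h1 : HasSum (fun j : ℕ => Real.exp (-s) * s ^ (j + 2) / ((j + 2).factorial : ℝ) *
      (((j + 2 : ℕ) : ℝ) * (((j + 2 : ℕ) : ℝ) - 1))) (s ^ 2) := by
    have h2 := (poisson_hasSum s).mul_left (s ^ 2)
    rw [mul_one] at h2
    refine h2.congr_fun ?_
    intro j
    have hf : (j.factorial : ℝ) ≠ 0 := by exact_mod_cast j.factorial_ne_zero
    have hj : ((j : ℝ) + 1) ≠ 0 := by positivity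
    have hj2 : ((j : ℝ) + 1 + 1) ≠ 0 := by positivity
    rw [Nat.factorial_succ, Nat.factorial_succ]
    push_cast
    have e : ((j : ℝ) + 2 - 1) = (j : ℝ) + 1 := by ring
    have e2 : ((j : ℝ) + 2) = (j : ℝ) + 1 + 1 := by ring
    rw [e, e2]
    field_simp
    ring
  have h3 := (hasSum_nat_add_iff (f := fun j : ℕ => Real.exp (-s) * s ^ j / (j.factorial : ℝ) *
    ((j : ℝ) * ((j : ℝ) - 1))) 2).1 h1
  simpa [Finset.sum_range_succ] using h3

theorem log_fac (j : ℕ) : Real.log (j.factorial : ℝ) ≤ (j : ℝ) * ((j : ℝ) - 1) := by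
  induction j with
  | zero => simp
  | succ j ih =>
    have hf : (j.factorial : ℝ) ≠ 0 := by exact_mod_cast j.factorial_ne_zero
    have hj : (0 : ℝ) < (j : ℝ) + 1 := by positivity
    have h1 := Real.log_le_sub_one_of_pos hj
    have h0 : (0 : ℝ) ≤ j := Nat.cast_nonneg j
    rw [Nat.factorial_succ]
    push_cast
    rw [Real.log_mul hj.ne' hf]
    nlinarith

theorem ent0 : ∀ s : ℝ, 0 < s → poissonEntropy s ≤ s - s * Real.log s + s ^ 2 := by
  intro s hs
  have h1 : HasSum (fun j : ℕ => Real.exp (-s) * s ^ j / (j.factorial : ℝ) * s -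
      Real.exp (-s) * s ^ j / (j.factorial : ℝ) * (j : ℝ) * Real.log s +
      Real.exp (-s) * s ^ j / (j.factorial : ℝ) * ((j : ℝ) * ((j : ℝ) - 1)))
      (1 * s - s * Real.log s + s ^ 2) :=
    (((poisson_hasSum s).mul_right s).sub ((mean s).mul_right (Real.log s))).add (second s)
  rw [one_mul] at h1
  unfold poissonEntropy
  rw [← h1.tsum_eq]
  refine (entropy_summable hs.le).tsum_le_tsum (fun j => ?_) h1.summable
  have hf : (0 : ℝ) < (j.factorial : ℝ) := by exact_mod_cast j.factorial_pos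
  have hp : 0 < Real.exp (-s) * s ^ j / (j.factorial : ℝ) := by positivity
  have hlog : Real.log (Real.exp (-s) * s ^ j / (j.factorial : ℝ)) =
      -s + j * Real.log s - Real.log (j.factorial : ℝ) := by
    rw [Real.log_div (by positivity) hf.ne', Real.log_mul (Real.exp_pos _).ne' (by positivity),
      Real.log_exp, Real.log_pow]
  have h2 := mul_le_mul_of_nonneg_left (log_fac j) hp.le
  rw [Real.negMulLog, hlog]
  nlinarith

theorem ent : Pool.Agent.Y571.UB.S_ENT := ent0

end Pool.Agent.Y419.UB.Ent
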